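import Pool.Agent.Y466.TW.Stm

set_option autoImplicit false

/-! # TW-FIN: from the antisymmetric function to the class and its basis -/

namespace Pool.Agent.Y465.TW

open Matrix ExteriorAlgebra Module
open scoped Kronecker
open Pool.Agent.Y466.TW
open Pool.Agent.Results.MP_69cf13_gt.EEightPlusTenH hiding T
open Pool.Agent.Results.MP_69cf13_gt.EEightPlusTenH.Aux


theorem form_spec' (n : ℕ) (hn : 4 ≤ n) (w : Coh n) (hw : w ∈ H n (n - 4)) :
    IsFormOf (H n 2) w (Pool.Agent.Results.MP_69cf13_gt.EEightPlusTenH.T n) (fun x y => vol n (x * y * w)) := by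
  intro x hx y hy
  apply top_eq
  have h1 : x * y ∈ (⋀[ℤ]^2 (Fin n → ℤ)) * (⋀[ℤ]^2 (Fin n → ℤ)) :=
    Submodule.mul_mem_mul hx hy
  have hw' : w ∈ ⋀[ℤ]^(n - 4) (Fin n → ℤ) := hw
  have h2 := Submodule.mul_mem_mul h1 hw'
  have h3 : (⋀[ℤ]^2 (Fin n → ℤ)) * (⋀[ℤ]^2 (Fin n → ℤ)) * (⋀[ℤ]^(n - 4) (Fin n → ℤ)) =
      ⋀[ℤ]^n (Fin n → ℤ) := by
    have e : 2 + 2 + (n - 4) = n := by omega
    rw [← pow_add, ← pow_add, e]
  rw [h3] at h2
  exact h2

/-- the product of two generators -/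
noncomputable def E2 (n : ℕ) (p : P (Fin n)) : ⋀[ℤ]^2 (Fin n → ℤ) :=
  ⟨ι ℤ (Pi.single p.1.1 1 : Fin n → ℤ) * ι ℤ (Pi.single p.1.2 1 : Fin n → ℤ), by
    have := Submodule.mul_mem_mul
      (LinearMap.mem_range_self (ι ℤ (M := Fin n → ℤ)) (Pi.single p.1.1 1))
      (LinearMap.mem_range_self (ι ℤ (M := Fin n → ℤ)) (Pi.single p.1.2 1))
    rw [exteriorPower, pow_two]
    exact this⟩

theorem card_P (n : ℕ) : Fintype.card (P (Fin n)) = n.choose 2 := by
  have h1 : Fintype.card (P (Fin n)) = Fintype.card (Σ a : Fin n, {b : Fin n // a < b}) :=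
    Fintype.card_congr (Equiv.subtypeProdEquivSigmaSubtype (fun a b : Fin n => a < b))
  rw [h1, Fintype.card_sigma]
  have h2 : ∀ a : Fin n, Fintype.card {b : Fin n // a < b} = n - 1 - a := by
    intro a
    rw [Fintype.card_subtype]
    have : (Finset.univ.filter fun b : Fin n => a < b) = Finset.Ioi a := by
      ext b
      simp
    rw [this, Fin.card_Ioi]
  rw [Finset.sum_congr rfl fun a _ => h2 a, Fin.sum_univ_eq_sum_range (fun i => n - 1 - i) n,
    Finset.sum_range_reflect (fun i => i) n, Finset.sum_range_id, Nat.choose_two_right]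

/-- the inverse of the Gram matrix -/
def invEH (k l : ℕ) : Matrix ((Fin k × Fin 8) ⊕ (Fin l × Fin 2))
    ((Fin k × Fin 8) ⊕ (Fin l × Fin 2)) ℤ :=
  fromBlocks ((1 : Matrix (Fin k) (Fin k) ℤ) ⊗ₖ E8inv) 0 0
    ((1 : Matrix (Fin l) (Fin l) ℤ) ⊗ₖ !![0, 1; 1, 0])

theorem gramEH_mul (k l : ℕ) : gramEH k l * invEH k l = 1 := by
  have h1 : CartanMatrix.E₈ * E8inv = 1 := by decide +kernel
  have h2 : (!![0, 1; 1, 0] : Matrix (Fin 2) (Fin 2) ℤ) * !![0, 1; 1, 0] = 1 := by decide +kernel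
  unfold gramEH invEH
  rw [Matrix.fromBlocks_multiply, ← Matrix.mul_kronecker_mul, ← Matrix.mul_kronecker_mul, h1, h2]
  simp

/-- the index map -/
def fidx {α β : Type} {k l : ℕ} (ea : Fin k ≃ α) (eb : Fin l ≃ β) :
    ((Fin k × Fin 8) ⊕ (Fin l × Fin 2)) → ((α × Fin 8) ⊕ (β ⊕ β))
  | .inl a => .inl (ea a.1, a.2)
  | .inr b => .inr (if b.2 = 0 then .inl (eb b.1) else .inr (eb b.1))

theorem EH_fidx {α β : Type} [Fintype α] [DecidableEq α] [Fintype β] [DecidableEq β] {k l : ℕ}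
    (ea : Fin k ≃ α) (eb : Fin l ≃ β) (i j : (Fin k × Fin 8) ⊕ (Fin l × Fin 2)) :
    EH α β (fidx ea eb i) (fidx ea eb j) = gramEH k l i j := by
  rcases i with ⟨a, i⟩ | ⟨b, c⟩ <;> rcases j with ⟨a', i'⟩ | ⟨b', c'⟩
  · simp [EH, gramEH, fidx, Matrix.kroneckerMap_apply, Matrix.one_apply]
  · simp [EH, gramEH, fidx]
  · simp [EH, gramEH, fidx]
  · fin_cases c <;> fin_cases c' <;>
      simp [EH, Hyp, gramEH, fidx, Matrix.kroneckerMap_apply, Matrix.one_apply]

theorem fin (h : PD) : FIN := by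
  intro n k w hn hw ⟨α, β, _, _, _, _, hk, Q, R, hQR, hRQ, hQ⟩
  obtain ⟨ω, hω, hE⟩ := h n hn w hw
  have hEE : ∀ p q : P (Fin n), form n ω (E2 n p) (E2 n q) = gram w p q := by
    intro p q
    have h1 := congrArg (vol n) (hE p.1.1 p.1.2 q.1.1 q.1.2)
    rw [map_smul, vol_T, smul_eq_mul, mul_one] at h1
    exact h1
  have hcard : Fintype.card (P (Fin n)) = Fintype.card ((α × Fin 8) ⊕ (β ⊕ β)) :=
    Matrix.square_of_invertible Q R hQR hRQ
  have hcardl : 8 * k + 2 * Fintype.card β = n.choose 2 := by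
    rw [← card_P n, hcard]
    simp only [Fintype.card_sum, Fintype.card_prod, Fintype.card_fin, hk]
    ring
  set l := Fintype.card β with hl
  have ea : Fin k ≃ α := (Fintype.equivFinOfCardEq hk).symm
  have eb : Fin l ≃ β := (Fintype.equivFin β).symm
  set b' : ((α × Fin 8) ⊕ (β ⊕ β)) → ⋀[ℤ]^2 (Fin n → ℤ) := fun j => ∑ p, Q p j • E2 n p with hb'
  have hG : ∀ i j, form n ω (b' i) (b' j) = EH α β i j := by
    intro i j
    rw [← hQ, Matrix.mul_apply, hb']
    simp only [map_sum, map_smul, LinearMap.sum_apply, LinearMap.smul_apply, smul_eq_mul, hEE,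
      Matrix.mul_apply, Matrix.transpose_apply]
    refine Finset.sum_congr rfl fun q _ => ?_
    rw [mul_comm]
  set b : ((Fin k × Fin 8) ⊕ (Fin l × Fin 2)) → ⋀[ℤ]^2 (Fin n → ℤ) :=
    fun i => b' (fidx ea eb i) with hb
  have hgram : ∀ i j, form n ω (b i) (b j) = gramEH k l i j := by
    intro i j
    rw [hb]
    simp only
    rw [hG, EH_fidx]
  refine ⟨ω, hω, fun x y => vol n (x * y * ω), form_spec' n hn ω hω, l,
    fun i => (b i : Coh n), hcardl, ?_, fun i j => hgram i j⟩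
  obtain ⟨B, hB⟩ := exists_basis_of_gram (form n ω) b
    (by
      rw [exteriorPower.finrank_eq]
      simp only [Fintype.card_sum, Fintype.card_prod, Fintype.card_fin, Module.finrank_fin_fun]
      rw [← hcardl]
      ring) (invEH k l) (by
      rw [← gramEH_mul]; congr 1; ext i j; exact hgram i j)
  refine ⟨fun i => (b i).2, ?_, ?_⟩
  · have h1 := B.linearIndependent.map' (Submodule.subtype _) (Submodule.ker_subtype _)
    have h2 : (⇑(Submodule.subtype (⋀[ℤ]^2 (Fin n → ℤ))) ∘ ⇑B) = fun i => (b i : Coh n) := by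
      funext i
      simp only [Function.comp_apply, hB, Submodule.subtype_apply]
    rwa [h2] at h1
  · intro z hz
    have h1 : (⟨z, hz⟩ : ⋀[ℤ]^2 (Fin n → ℤ)) ∈ Submodule.span ℤ (Set.range B) := by
      rw [B.span_eq]; trivial
    have h2 := Submodule.mem_map_of_mem (f := Submodule.subtype (⋀[ℤ]^2 (Fin n → ℤ))) h1
    rw [Submodule.map_span, ← Set.range_comp] at h2
    have h3 : (⇑(Submodule.subtype (⋀[ℤ]^2 (Fin n → ℤ))) ∘ ⇑B) = fun i => (b i : Coh n) := by
      funext i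
      simp only [Function.comp_apply, hB, Submodule.subtype_apply]
    rw [h3] at h2
    exact h2

end Pool.Agent.Y465.TW
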